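import Mathlib

/-!
# Frege + universal reduction with small reduced formulas (MP_a6aa4e_lc)

Squad FUR: definitions used in the final statement.
-/

set_option autoImplicit false

namespace Pool.Agent.FUR

/-- propositional formulas in `∧`, `∨`, `¬`, with the variables `0, 1, 2, …` and the constants -/
inductive PF : Type
  | cst : Bool → PF
  | var : ℕ → PF
  | neg : PF → PF
  | and : PF → PF → PF
  | or : PF → PF → PF

namespace PF

/-- number of symbols -/
def size : PF → ℕ
  | cst _ => 1
  | var _ => 1
  | neg φ => φ.size + 1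
  | and φ ψ => φ.size + ψ.size + 1
  | or φ ψ => φ.size + ψ.size + 1

/-- truth value under the assignment `σ` -/
def eval (σ : ℕ → Bool) : PF → Bool
  | cst b => b
  | var v => σ v
  | neg φ => !(eval σ φ)
  | and φ ψ => eval σ φ && eval σ ψ
  | or φ ψ => eval σ φ || eval σ ψ

/-- the variables that occur -/
def vars : PF → Finset ℕ
  | cst _ => ∅
  | var v => {v}
  | neg φ => φ.vars
  | and φ ψ => φ.vars ∪ ψ.vars
  | or φ ψ => φ.vars ∪ ψ.vars

/-- simultaneous substitution of formulas for all variables -/
def sub (τ : ℕ → PF) : PF → PF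
  | cst b => cst b
  | var v => τ v
  | neg φ => neg (sub τ φ)
  | and φ ψ => and (sub τ φ) (sub τ ψ)
  | or φ ψ => or (sub τ φ) (sub τ ψ)

/-- substitution of `B` for the variable `u` : `φ[u/B]` -/
def sub1 (φ : PF) (u : ℕ) (B : PF) : PF := φ.sub (Function.update var u B)

end PF

/-- The literal with variable `l.1`, positive if `l.2` is true. -/
def litF (l : ℕ × Bool) : PF := if l.2 then PF.var l.1 else PF.neg (PF.var l.1)

/-- A clause (list of literals) as a formula. -/
def clF : List (ℕ × Bool) → PF
  | [] => PF.cst false
  | [l] => litF l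
  | l :: c => PF.or (litF l) (clF c)

/-- A closed prenex formula: the variable `i` (for `i` less than the length of the prefix) is
universal if the entry number `i` of the prefix is `true`, and existential if it is `false`; the
variables are quantified in the order `0, 1, 2, …`. The matrix is a list of clauses. -/
structure QBF where
  /-- the quantifier prefix -/
  pre : List Bool
  /-- the matrix -/
  mat : List (List (ℕ × Bool))

/-- the game value: `M` is the truth of the matrix, `i` the number of variables already fixed -/
def QVal (M : (ℕ → Bool) → Prop) : List Bool → ℕ → (ℕ → Bool) → Prop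
  | [], _, σ => M σ
  | true :: p, i, σ => ∀ b : Bool, QVal M p (i + 1) (Function.update σ i b)
  | false :: p, i, σ => ∃ b : Bool, QVal M p (i + 1) (Function.update σ i b)

namespace QBF

/-- all variables of the matrix are quantified -/
def Closed (Φ : QBF) : Prop := ∀ c ∈ Φ.mat, ∀ l ∈ c, l.1 < Φ.pre.length

/-- truth -/
def IsTrue (Φ : QBF) : Prop :=
  QVal (fun σ => ∀ c ∈ Φ.mat, (clF c).eval σ = true) Φ.pre 0 (fun _ => false)

/-- number of symbols: two for every quantifier with its variable, the symbols of the clauses, and
one for every clause -/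
def size (Φ : QBF) : ℕ := 2 * Φ.pre.length + (Φ.mat.map fun c => (clF c).size + 1).sum

/-- `u` is a universal variable -/
def Univ (Φ : QBF) (u : ℕ) : Prop := Φ.pre[u]? = some true

end QBF

/-- a schematic inference rule: from the instances of the premises infer the instance of the
conclusion -/
structure Rule where
  /-- premises -/
  prem : List PF
  /-- conclusion -/
  conc : PF

/-- soundness: every assignment that satisfies the premises satisfies the conclusion -/
def Rule.Sound (r : Rule) : Prop :=
  ∀ σ : ℕ → Bool, (∀ p ∈ r.prem, p.eval σ = true) → r.conc.eval σ = true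

/-- `Ref Φ R s Λ k` : `Λ` (last line first) is a sequence of formulas in which every formula is a
clause of the matrix of `Φ`, or follows from earlier formulas by a rule of `R`, or is obtained from
an earlier formula by `∀`-reduction. There are exactly `k` `∀`-reductions, and each of them is
applied to a formula with at most `s` symbols and substitutes a formula with at most `s` symbols.
There is no restriction on the other formulas. -/
inductive Ref (Φ : QBF) (R : Set Rule) (s : ℕ) : List PF → ℕ → Prop
  | nil : Ref Φ R s [] 0
  | clause {Λ : List PF} {k : ℕ} (h : Ref Φ R s Λ k) (c : List (ℕ × Bool)) (hc : c ∈ Φ.mat) :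
      Ref Φ R s (clF c :: Λ) k
  | rule {Λ : List PF} {k : ℕ} (h : Ref Φ R s Λ k) (r : Rule) (hr : r ∈ R) (τ : ℕ → PF)
      (hp : ∀ p ∈ r.prem, p.sub τ ∈ Λ) : Ref Φ R s (r.conc.sub τ :: Λ) k
  | red {Λ : List PF} {k : ℕ} (h : Ref Φ R s Λ k) (L : PF) (hL : L ∈ Λ) (u : ℕ) (hu : Φ.Univ u)
      (hin : u ∈ L.vars) (hlast : ∀ v ∈ L.vars, v ≤ u) (B : PF) (hB : ∀ v ∈ B.vars, v < u)
      (hs : L.size ≤ s) (hs' : B.size ≤ s) : Ref Φ R s (L.sub1 u B :: Λ) (k + 1)

/-- The four clauses of `t ↔ (a ⊕ x)`. -/
def xorC (t a x : ℕ) : List (List (ℕ × Bool)) :=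
  [[(t, false), (a, true), (x, true)], [(t, false), (a, false), (x, false)],
   [(t, true), (a, false), (x, true)], [(t, true), (a, true), (x, false)]]

/-- The formula `∃ x_0 … x_{n-1} ∀ z ∃ t_0 … t_{n-1}. (t_0 ↔ x_0) ∧ ⋀_i (t_{i+1} ↔ t_i ⊕ x_{i+1}) ∧
(z ↔ ¬ t_{n-1})` with `x_i = i`, `z = n`, `t_i = n + 1 + i` (for `n ≥ 1`). -/
def QPar (n : ℕ) : QBF where
  pre := List.replicate n false ++ true :: List.replicate n false
  mat := [[(n + 1, false), (0, true)], [(n + 1, true), (0, false)]] ++
    ((List.range (n - 1)).flatMap fun i => xorC (n + 1 + (i + 1)) (n + 1 + i) (i + 1)) ++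
    [[(n, true), (2 * n, true)], [(n, false), (2 * n, false)]]

end Pool.Agent.FUR
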