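import Pool.Agent.FUR.Defs

/-!
# Squad FUR (MP_a6aa4e_lc): statements with complete proofs in the docstrings

THEOREM.  For every `ε > 0` and `c` and all large `n`: every refutation of the parity formula
`QPar n` in Frege + ∀red (any sound rules) in which the `∀`-reductions are applied to formulas with
at most `|QPar n|^(3/2-ε)` symbols (and substitute formulas with at most so many symbols) contains
at least `|QPar n|^c` `∀`-reductions; no restriction on the other formulas and inferences.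

PLAN.  (1) The refutation gives a decision list for the parity function, whose tests and outputs are
De Morgan formulas of size `n^(3/2-ε')` (EXT, PFM).  (2) New: moment bound for the sensitivity of
De Morgan formulas: `E_x C(S_f(x), q) ≤ C (n^γ L(f)^(2/3))^q` (MOM; by induction on the number of
variables: a random variable is fixed if all variables occur rarely, otherwise a variable that
occurs often).  (3) On a random subcube of CONSTANT dimension `k` every test has sensitivity `≤ r`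
at all points, except with probability `n^(-c-1)` (GRS), so it depends on `≤ r 4^r` variables (SIM).
(4) The first test which is not identically true on the subcube gives a contradiction (DLT).

Delivery: `Pool/Agent/HelperNN_FUR/X.lean`, `import Pool.Agent.FUR.Stmts`,
namespace `Pool.Agent.FUR.HNN`, `theorem x (hypotheses) : XStmt`.
-/

set_option autoImplicit false

open Finset

namespace Pool.Agent.FUR

/-! ## De Morgan formulas, sensitivity -/

/-- De Morgan formulas; `lit v b` is true iff the variable `v` has the value `b` -/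
inductive Fm (ι : Type) : Type
  | cst : Bool → Fm ι
  | lit : ι → Bool → Fm ι
  | and : Fm ι → Fm ι → Fm ι
  | or : Fm ι → Fm ι → Fm ι
  deriving DecidableEq

namespace Fm

variable {ι : Type}

/-- value -/
def ev (x : ι → Bool) : Fm ι → Bool
  | cst b => b
  | lit v b => x v == b
  | and F G => F.ev x && G.ev x
  | or F G => F.ev x || G.ev x

/-- number of leaves (constants are not counted) -/
def lv : Fm ι → ℕ
  | cst _ => 0
  | lit _ _ => 1
  | and F G => F.lv + G.lv
  | or F G => F.lv + G.lv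

/-- number of nodes -/
def nd : Fm ι → ℕ
  | cst _ => 1
  | lit _ _ => 1
  | and F G => F.nd + G.nd + 1
  | or F G => F.nd + G.nd + 1

/-- number of leaves with the variable `v` -/
def cnt [DecidableEq ι] (v : ι) : Fm ι → ℕ
  | cst _ => 0
  | lit w _ => if w = v then 1 else 0
  | and F G => F.cnt v + G.cnt v
  | or F G => F.cnt v + G.cnt v

/-- the value `b` is put in for the variable `v` -/
def put [DecidableEq ι] (v : ι) (b : Bool) : Fm ι → Fm ι
  | cst c => cst c
  | lit w c => if w = v then cst (b == c) else lit w c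
  | and F G => and (F.put v b) (G.put v b)
  | or F G => or (F.put v b) (G.put v b)

/-- no constants -/
def noc : Fm ι → Prop
  | cst _ => False
  | lit _ _ => True
  | and F G => F.noc ∧ G.noc
  | or F G => F.noc ∧ G.noc

/-- reduced: the sibling of a leaf does not contain the variable of the leaf -/
def red [DecidableEq ι] : Fm ι → Prop
  | cst _ => True
  | lit _ _ => True
  | and F G => F.red ∧ G.red ∧ (∀ v b, F = lit v b → G.cnt v = 0) ∧
      (∀ v b, G = lit v b → F.cnt v = 0)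
  | or F G => F.red ∧ G.red ∧ (∀ v b, F = lit v b → G.cnt v = 0) ∧
      (∀ v b, G = lit v b → F.cnt v = 0)

end Fm

/-- Boolean functions of `N` variables -/
abbrev BF (N : ℕ) : Type := (Fin N → Bool) → Bool

variable {N : ℕ}

/-- `f` has a De Morgan formula with at most `s` leaves -/
def LC (f : BF N) (s : ℕ) : Prop := ∃ F : Fm (Fin N), (∀ x, F.ev x = f x) ∧ F.lv ≤ s

/-- the bit `v` flipped -/
def fl (x : Fin N → Bool) (v : Fin N) : Fin N → Bool := Function.update x v (!(x v))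

/-- the sensitive coordinates of `f` at `x` -/
def Sn (f : BF N) (x : Fin N → Bool) : Finset (Fin N) := univ.filter fun v => f (fl x v) ≠ f x

/-- `f` depends on `v` -/
def Ess (f : BF N) (v : Fin N) : Prop := ∃ x, f (fl x v) ≠ f x

/-- the variable `v` is fixed to `b` -/
def rst (f : BF N) (v : Fin N) (b : Bool) : BF N := fun x => f (Function.update x v b)

/-- `2^N` times the mean of `C(S_f(x), q)` -/
def Mq (q : ℕ) (f : BF N) : ℕ := ∑ x : Fin N → Bool, ((Sn f x).card).choose q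

/-- parity of `σ 0, …, σ (i-1)` -/
def px (σ : ℕ → Bool) : ℕ → Bool
  | 0 => false
  | i + 1 => xor (px σ i) (σ i)

/-- the assignment `x` on `0, …, n-1`, `b` at `n`, false elsewhere -/
def asg {n : ℕ} (x : Fin n → Bool) (b : Bool) : ℕ → Bool := fun v =>
  if h : v < n then x ⟨v, h⟩ else if v = n then b else false

/-- parity -/
def par {n : ℕ} (x : Fin n → Bool) : Bool := px (asg x false) n

/-- `x` on `K`, `ρ` outside -/
def ov (K : Finset (Fin N)) (ρ x : Fin N → Bool) : Fin N → Bool := fun v =>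
  if v ∈ K then x v else ρ v

/-! ## A. One variable -/

/-- **NRM** (100 lines).  Every formula can be reduced.
PROOF.  Prove by strong induction on `k`: for all `F` with `F.lv + F.nd ≤ k` there is `F'` with the
same values, `F'.lv ≤ F.lv`, `F'.nd ≤ F.nd`, `F'.red`, and `F'` constant or without constants.
`F = and G H`: apply the induction hypothesis to `G`, `H`: `G'`, `H'`.  If one of them is constant,
the result is the other one or `cst false` (resp. `cst true` for `or`).  Otherwise, if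
`G' = lit v b` and `H'.cnt v ≠ 0`: for `and` the formula `and G' (H'.put v b)`, for `or` the formula
`or G' (H'.put v (!b))` has the same values (if `x v` is the value put in nothing changes, otherwise
the gate has its controlling value), fewer leaves (`(H.put v b).lv + H.cnt v = H.lv`), and the same
number of nodes, so the induction hypothesis applies to it; the same if `H' = lit v b` and
`G'.cnt v ≠ 0`.  Otherwise `and G' H'` is the result. -/
def NRMStmt : Prop := ∀ (N : ℕ) (F : Fm (Fin N)), ∃ F' : Fm (Fin N),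
  (∀ x, F'.ev x = F.ev x) ∧ F'.lv ≤ F.lv ∧ F'.red ∧ ((∃ b, F' = Fm.cst b) ∨ F'.noc)

/-- **ONB** (100 lines).  Fixing a variable in a reduced formula `F` without constants: at least
`cnt v` leaves disappear for both values, and at least `3 cnt v` for the two values together, if
`F` has at least two leaves.
PROOF.  Induction on `F`, claim for all `F` (red, noc): there is `D : Bool → ℕ` with the properties
below, and `3 * F.cnt v ≤ D false + D true` if `2 ≤ F.lv`.  `F = lit w c`: `D b = F.cnt v` (the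
function is constant if `w = v`, otherwise `D = 0`).  `F = and G H`, neither is a literal of `v`:
`D = D_G + D_H` (formula `and G_b H_b`; if `G.lv = 1` then `G` is a literal of another variable
(noc), `cnt = 0`, so `3 cnt ≤ D + D` holds as well; `noc` gives `1 ≤ lv`).  `F = and (lit v c) H`:
`H.cnt v = 0` (red), `F.cnt v = 1`; for `b = c` the function is `H`, which has `F.lv - 1` leaves:
`D c = 1`; for `b ≠ c` it is constant: `D (!c) = F.lv = H.lv + 1 ≥ 2`.  Same for `or` (constant for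
`b = c`) and for `G` and `H` exchanged. -/
def ONBStmt : Prop := ∀ (N : ℕ) (F : Fm (Fin N)), F.red → F.noc → ∀ v : Fin N, ∃ D : Bool → ℕ,
  (∀ b, F.cnt v ≤ D b ∧ D b ≤ F.lv ∧
    ∃ G : Fm (Fin N), (∀ x, G.ev x = F.ev (Function.update x v b)) ∧ G.lv + D b ≤ F.lv) ∧
  (2 ≤ F.lv → 3 * F.cnt v ≤ D false + D true)

/-- **ONE** (60 lines; uses NRM, ONB).
PROOF.  `F` a formula for `f` with at most `ℓ` leaves, reduced by NRM: `F'`; `F'.lv = ℓ` by
minimality, so `F'` is not constant (`F'.lv ≥ 1`), noc.  `m v = F'.cnt v`, `∑ v, F'.cnt v = F'.lv`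
(induction).  If `f` does not depend on `v`: `F'.put v false` has the value
`F'.ev (update x v false) = f (update x v false) = f x` and `ℓ - cnt v` leaves, so `cnt v = 0`. -/
def ONEStmt : Prop := ∀ (N : ℕ) (f : BF N) (ℓ : ℕ), 1 ≤ ℓ → LC f ℓ → (∀ s, LC f s → ℓ ≤ s) →
  ∃ m : Fin N → ℕ, ∑ v, m v = ℓ ∧ (∀ v, ¬ Ess f v → m v = 0) ∧
    (∀ v b, LC (rst f v b) (ℓ - m v)) ∧
    (2 ≤ ℓ → ∀ v, ∃ D : Bool → ℕ, (∀ b, m v ≤ D b ∧ D b ≤ ℓ ∧ LC (rst f v b) (ℓ - D b)) ∧
      3 * m v ≤ D false + D true)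

/-- **RSM** (50 lines).
PROOF.  `Sn (rst f v b) x = (Sn f (update x v b)).erase v` (for `w ≠ v` flipping `w` commutes with
the update at `v`; `rst f v b` does not depend on `v`).  Sum over `x`: the map
`x ↦ update x v b` is two to one onto `{x | x v = b}`, that is
`∑ x, g (update x v false) + ∑ x, g (update x v true) = 2 ∑ x, g x` (split both sums in `x v = false`
and `x v = true` and use the involution `x ↦ fl x v`; or
`g (update x v false) + g (update x v true) = g x + g (fl x v)`, and `fl · v` is an involution). -/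
def RSMStmt : Prop := ∀ (N q : ℕ) (f : BF N) (v : Fin N),
  Mq q (rst f v false) + Mq q (rst f v true) =
    2 * ∑ x : Fin N → Bool, (((Sn f x).erase v).card).choose q

/-- **AVG** (50 lines; uses RSM).
PROOF.  RSM and exchange of sums: `∑ v ∈ A, C(|S ∖ v|, q) = (|A| - q) C(|S|, q)` for `S ⊆ A`
(`Sn f x ⊆ A`): for `v ∉ S` the term is `C(|S|, q)`, for `v ∈ S` it is `C(|S| - 1, q)`, and
`|S| C(|S| - 1, q) = (|S| - q) C(|S|, q)` as real numbers (if `q ≤ |S|`: `Nat.choose_mul_succ_eq` or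
`Nat.succ_mul_choose_eq`; if `q > |S|` both sides are `0`). -/
def AVGStmt : Prop := ∀ (N q : ℕ) (f : BF N) (A : Finset (Fin N)), (∀ v, Ess f v → v ∈ A) →
  ∑ v ∈ A, ((Mq q (rst f v false) : ℝ) + Mq q (rst f v true)) =
    2 * ((A.card : ℝ) - q) * Mq q f

/-- **HVY** (30 lines; uses RSM).
PROOF.  `|S| ≤ |S ∖ v| + 1`, `C(a + 1, q + 1) = C(a, q + 1) + C(a, q)`, monotone; RSM for `q + 1` and
for `q`. -/
def HVYStmt : Prop := ∀ (N q : ℕ) (f : BF N) (v : Fin N),
  2 * Mq (q + 1) f ≤ (Mq (q + 1) (rst f v false) + Mq (q + 1) (rst f v true)) +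
    (Mq q (rst f v false) + Mq q (rst f v true))

/-- **RPW** (70 lines).
PROOF.  `(1 - t)^θ ≤ exp(-θ t) ≤ 1 - θ t + θ² t² / 2` for `0 ≤ t ≤ 1` (`1 - t ≤ exp(-t)`; for `y ≥ 0`:
`exp y ≥ 1 + y + y²/2` (`Real.quadratic_le_exp_of_nonneg`) and
`(1 - y + y²/2)(1 + y + y²/2) = 1 + y⁴/4 ≥ 1`).  There are `D0' ≤ D0`, `D1' ≤ D1` with
`D0' + D1' = 3m`, `m ≤ D0', D1' ≤ 2m` (if `2m ≤ D0` take `2m, m`; if `2m ≤ D1` take `m, 2m`; otherwise
`D0, 3m - D0`).  `(ℓ - D)^θ ≤ (ℓ - D')^θ = ℓ^θ (1 - D'/ℓ)^θ`; the sum of the two squares of the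
`D'` is at most `5 m²` (`(D0' - m)(2m - D0') ≥ 0`). -/
def RPWStmt : Prop := ∀ (θ : ℝ), 0 ≤ θ → ∀ ℓ m D0 D1 : ℕ, 1 ≤ ℓ → 2 * m ≤ ℓ → m ≤ D0 → m ≤ D1 →
  3 * m ≤ D0 + D1 → D0 ≤ ℓ → D1 ≤ ℓ →
  (((ℓ - D0 : ℕ) : ℝ) ^ θ + ((ℓ - D1 : ℕ) : ℝ) ^ θ) / 2 ≤
    (ℓ : ℝ) ^ θ * (1 - (3 / 2) * θ * ((m : ℝ) / ℓ) + (5 / 4) * θ ^ 2 * ((m : ℝ) / ℓ) ^ 2)

/-- **MOM** (220 lines; uses ONE AVG HVY RPW).  The moment bound.
PROOF.  Induction on `q`.  `q = 0`: `Mq 0 f = 2^N`, `C = 1`.  Let `q ≥ 1`, `C₁` the constant of `q - 1`,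
`θ = 2q/3`, `K = ⌈2q/γ⌉ + 2`, `C = max (4^q) (C₁ / (1 - (1 - 1/K)^θ))`.  Prove the bound by induction
on `n = |A|`; write `B(n, s) = 2^N C n^(γ q) s^θ = 2^N C (n^γ s^(2/3))^q`.
It is enough to treat the least `s = ℓ` with `LC f ℓ` (monotone in `s`).  `ℓ = 0`: `f` is constant
(value of a formula without literals), `Sn f x = ∅`, `Mq q f = 0`.  Let `ℓ ≥ 1`.
(a) `n ≤ 2q`: `Sn f x ⊆ A`, `C(|S|, q) ≤ 2^|S| ≤ 4^q ≤ C (n^γ ℓ^(2/3))^q`.
(b) `n > 2q` and there is `v ∈ A` with `ℓ ≤ K m_v` (`m` from ONE).  For both `b` the function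
`rst f v b` has its variables in `A.erase v` and `LC (rst f v b) (ℓ - m_v)`,
`ℓ - m_v ≤ (1 - 1/K) ℓ`.  HVY (with `q - 1`) and the two induction hypotheses (`n - 1 ≥ 1`):
`Mq q f ≤ 2^N C (n^γ)^q ((1 - 1/K) ℓ)^θ + 2^N C₁ (n^γ ℓ^(2/3))^(q-1)
  ≤ 2^N (n^γ ℓ^(2/3))^q (C (1 - 1/K)^θ + C₁) ≤ B(n, ℓ)` (`n^γ ℓ^(2/3) ≥ 1`).
(c) `n > 2q` and `K m_v < ℓ` for all `v ∈ A`.  As `∑ m_v = ℓ ≥ 1` (`m_v = 0` outside `A`), some
`m_v ≥ 1`, so `ℓ ≥ 3` (`K ≥ 2`), and `2 m_v ≤ ℓ`.  Induction hypothesis for `rst f v b` (`A.erase v`,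
`ℓ - D_b`) and RPW:
`(Mq q (rst f v false) + Mq q (rst f v true))/2 ≤ 2^N C (n-1)^(γ q) ℓ^θ (1 - (3/2) θ m_v/ℓ
 + (5/4) θ² (m_v/ℓ)²)` and `(3/2) θ = q`, `(5/4) θ² (m_v/ℓ)² ≤ q κ m_v/ℓ` with
`κ = 5q/(9K) ≤ γ/2` (because `m_v/ℓ ≤ 1/K`, `(5/4) θ² = 5q²/9`).  Sum over `v ∈ A` with AVG:
`(n - q) Mq q f ≤ 2^N C (n-1)^(γ q) ℓ^θ (n - q + q κ)`.  So
`Mq q f ≤ 2^N C ℓ^θ (n-1)^(γ q) (1 + q κ/(n-q))`, `n - q ≥ n/2`, and
`(1 - 1/n)^(γ q) (1 + 2 q κ/n) ≤ exp(-γ q/n + 2 q κ/n) ≤ 1`. -/
def MOMStmt : Prop := ∀ (q : ℕ) (γ : ℝ), 0 < γ → ∃ C : ℝ, 1 ≤ C ∧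
  ∀ (N : ℕ) (f : BF N) (A : Finset (Fin N)) (s : ℕ), A.Nonempty → (∀ v, Ess f v → v ∈ A) →
    LC f s → (Mq q f : ℝ) ≤ 2 ^ N * C * ((A.card : ℝ) ^ γ * (s : ℝ) ^ ((2 : ℝ) / 3)) ^ q

/-! ## B. Sensitivity and number of variables -/

/-- **DEN** (100 lines).  A nonzero function with sensitivity at most `t` at its ones has density at
least `2^(-t)`.
PROOF.  Induction on `N`, split the cube by the last (or first) variable (`Fin.cons`/`Fin.snoc`):
`h₀, h₁`.  Both nonzero: both have at most `t` sensitive coordinates at their ones, add up: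
`2^(N+1) = 2^N + 2^N ≤ 2^t (|h₀| + |h₁|)`.  If `h₁ = 0`: at a one of `h₀` the split variable is
sensitive, so the sensitivity of `h₀` is at most `t - 1` (and `t ≥ 1`): `2^N ≤ 2^(t-1) |h₀|`.
Alternative: induction on a set `A` of variables containing all essential ones, with `rst`. -/
def DENStmt : Prop := ∀ (N t : ℕ) (h : BF N), (∃ x, h x = true) →
  (∀ x, h x = true → (Sn h x).card ≤ t) →
  2 ^ N ≤ 2 ^ t * (univ.filter fun x : Fin N → Bool => h x = true).card

open Classical in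
/-- **SIM** (70 lines; uses DEN).  Simon's theorem: sensitivity `≤ r` implies at most `r 4^r`
essential variables.
PROOF.  For an essential `v` let `h x = (g (fl x v) ≠ g x)`, nonzero.  If `h x`, then `v ∉ Sn h x` and
every `w ∈ Sn h x` is in `Sn g x` or in `Sn g (fl x v)` (`fl` of different variables commute), so
`|Sn h x| ≤ 2r`.  DEN: `2^N ≤ 4^r |{x | v ∈ Sn g x}|`.  Sum over the essential `v`:
`E 2^N ≤ 4^r ∑ x, |Sn g x| ≤ 4^r r 2^N`. -/
def SIMStmt : Prop := ∀ (N r : ℕ) (g : BF N), (∀ x, (Sn g x).card ≤ r) →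
  (univ.filter fun v => Ess g v).card ≤ r * 4 ^ r

/-- **GRS** (120 lines).  Existence of a good subcube.
PROOF.  For a set `K` with `k` elements let `b_j(K)` be the number of `z` with
`r ≤ |Sn (F j) z ∩ K|`.  If `2^k ∑_j b_j(K) < 2^N` for some `K`, there is a good `ρ`: every bad `ρ` has
a bad `z = ov K ρ x`, and every `z` is `ov K ρ x` (some `x`) for exactly `2^k` many `ρ` (those which
agree with `z` outside `K`).  If there is no such `K`, sum over all `K`:
`2^N C(N,k) ≤ 2^k ∑_K ∑_j ∑_z [r ≤ |Sn (F j) z ∩ K|] ≤ 2^k ∑_j ∑_z ∑_K C(|Sn (F j) z ∩ K|, r)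
 = 2^k C(N-r, k-r) ∑_j Mq r (F j)` (count pairs: `r`-subset of `Sn (F j) z`, `K` containing it).
Multiply the hypothesis by `C(N-r, k-r)` and use `C(N,k) C(k,r) = C(N,r) C(N-r,k-r)`
(`Nat.choose_mul`), `C(k,r) > 0`. -/
def GRSStmt : Prop := ∀ (N k r M : ℕ) (F : Fin M → BF N), k ≤ N → r ≤ k →
  2 ^ k * k.choose r * ∑ j, Mq r (F j) < 2 ^ N * N.choose r →
  ∃ (K : Finset (Fin N)) (ρ : Fin N → Bool), K.card = k ∧
    ∀ j x, (Sn (F j) (ov K ρ x) ∩ K).card < r

/-! ## C. Decision lists for parity -/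

/-- **PAR** (30 lines).
PROOF.  `px σ i` changes if one of the `σ l`, `l < i`, is flipped (induction on `i`), and does not
change if `σ` is changed only at indices `≥ i`. -/
def PARStmt : Prop := ∀ (n : ℕ) (x : Fin n → Bool) (v : Fin n), par (fl x v) = !(par x)

/-- **DLT** (100 lines; uses SIM, PAR).  No decision list with tests `if B j x then T1 j x else T0 j x`
and outputs `B j` computes parity, if all functions have small sensitivity on the subcube.
PROOF.  For `f = T0 j, T1 j, B j` the function `g x = f (ov K ρ x)` has `Sn g x = Sn f (ov K ρ x) ∩ K`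
(`fl (ov K ρ x) v = ov K ρ (fl x v)` for `v ∈ K`; for `v ∉ K` flipping has no effect), so by SIM it has
at most `r 4^r` essential variables, all in `K`.  For every `x` there is `j` with test value false at
`ov K ρ x`; let `j` be the least index for which the test `j` is false at some point `x₀` of the
subcube.  Let `E` be the set of essential variables of the three functions of `j`; `|E| < k = |K|`, so
there is `v ∈ K ∖ E`.  At `x₀` and at `x₁ = fl x₀ v` the test `j` is false, all earlier tests are true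
(minimality), and `B j` has the same value; so `par (ov K ρ x₀) = par (ov K ρ x₁)`,
contradiction with PAR (`ov K ρ x₁ = fl (ov K ρ x₀) v`). -/
def DLTStmt : Prop := ∀ (N k r M : ℕ) (T0 T1 B : Fin M → BF N) (K : Finset (Fin N))
  (ρ : Fin N → Bool), K.card = k → 3 * (r * 4 ^ r) < k →
  (∀ j x, (Sn (T0 j) (ov K ρ x) ∩ K).card ≤ r) → (∀ j x, (Sn (T1 j) (ov K ρ x) ∩ K).card ≤ r) →
  (∀ j x, (Sn (B j) (ov K ρ x) ∩ K).card ≤ r) →
  ¬ ∀ x, ∃ j, (if B j x then T1 j x else T0 j x) = false ∧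
    (∀ i < j, (if B i x then T1 i x else T0 i x) = true) ∧ B j x = par x

/-! ## D. Refutations -/

/-- **SEM** (40 lines).  Semantics of substitution.
PROOF.  Inductions on the formula. -/
def SEMStmt : Prop :=
  (∀ (τ : ℕ → PF) (σ : ℕ → Bool) (φ : PF), (φ.sub τ).eval σ = φ.eval fun v => (τ v).eval σ) ∧
  (∀ (u : ℕ) (B : PF) (σ : ℕ → Bool) (φ : PF),
    (φ.sub1 u B).eval σ = φ.eval (Function.update σ u (B.eval σ))) ∧
  (∀ (σ σ' : ℕ → Bool) (φ : PF), (∀ v ∈ φ.vars, σ v = σ' v) → φ.eval σ = φ.eval σ') ∧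
  (∀ (u : ℕ) (B : PF) (φ : PF) (v : ℕ), v ∈ (φ.sub1 u B).vars → v ∈ B.vars ∨ (v ∈ φ.vars ∧ v ≠ u))

/-- the assignment to all variables of `QPar n`: `x`, the value `b` of `z`, and the partial
parities -/
def full {n : ℕ} (x : Fin n → Bool) (b : Bool) : ℕ → Bool := fun v =>
  if v ≤ n then asg x b v else px (asg x false) (v - n)

/-- **MAT** (60 lines).  The matrix is satisfied if `z` is not the parity.
PROOF.  `t_i = n + 1 + i` has the value `px _ (i + 1)` = parity of `x_0, …, x_i` under `full x b`.  The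
clauses say `t_0 ↔ x_0` (`px _ 1 = xor false x_0`), `t_{i+1} ↔ t_i ⊕ x_{i+1}` (`i + 1 < n`), and
`z ↔ ¬ t_{n-1}`, `t_{n-1} = 2n` has the value `par x`; case distinction on the Boolean values. -/
def MATStmt : Prop := ∀ (n : ℕ), 1 ≤ n → ∀ (x : Fin n → Bool) (c : List (ℕ × Bool)),
  c ∈ (QPar n).mat → (clF c).eval (full x (!(par x))) = true

/-- **EXT** (150 lines; uses SEM, MAT).  Strategy extraction.
PROOF.  The only universal variable is `u = n` (`List.getElem?` of the prefix).  Induction on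
`h : Ref (QPar n) R s Λ k` for: there are `L B : Fin k → PF` with the size and variable bounds such that
for every `x`: EITHER there is `j` as in the conclusion, OR all the tests are true,
`(L i).eval (asg x ((B i).eval (asg x false))) = true`, and all lines in `Λ` are true under
`full x (!(par x))`.  `nil` trivial; `clause`: MAT; `rule`: soundness (with SEM 1); if the first
alternative holds at `x` it stays.  `red`: `L`, `B` are appended (`Fin.snoc`); in the second
alternative the test value is `L.eval (asg x (B.eval ..)) = (L.sub1 n B).eval σ` for every `σ` that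
agrees with `x` on `0, …, n-1` (SEM 2, 3; the variables of `L` are `≤ n`, those of `B` are `< n`).  If
it is true, the new line is true.  If it is false: `L` is true at `full x (!(par x))`, that is
`L.eval (asg x (!(par x))) = true` (SEM 3, `L ∈ Λ`), so `B.eval (asg x false) ≠ !(par x)`, so it is
`par x`, and all earlier tests are true: first alternative with the last index.  At the end
`cst false ∈ Λ` excludes the second alternative. -/
def EXTStmt : Prop := ∀ (n : ℕ), 1 ≤ n → ∀ R : Set Rule, (∀ r ∈ R, r.Sound) →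
  ∀ (s : ℕ) (Λ : List PF) (k : ℕ), Ref (QPar n) R s Λ k → PF.cst false ∈ Λ →
  ∃ L B : Fin k → PF, (∀ j, (L j).size ≤ s ∧ (B j).size ≤ s) ∧
    ∀ x : Fin n → Bool, ∃ j, (L j).eval (asg x ((B j).eval (asg x false))) = false ∧
      (∀ i < j, (L i).eval (asg x ((B i).eval (asg x false))) = true) ∧
      (B j).eval (asg x false) = par x

/-- **PFM** (50 lines).  Formulas in `∧, ∨, ¬` as De Morgan formulas.
PROOF.  Induction on `φ` for `φ` and its negation together (negations are pushed to the leaves):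
for both `c` there is `F` with `F.ev x = xor c (φ.eval (asg x b))` and `F.lv ≤ φ.size`.  A variable
`v < n` is a literal, the others are constants. -/
def PFMStmt : Prop := ∀ (n : ℕ) (φ : PF) (b : Bool),
  LC (fun x : Fin n → Bool => φ.eval (asg x b)) φ.size

/-- **SZQ** (60 lines).  `|QPar n| = 34 n - 8`.
PROOF.  Prefix `2 (2n + 1)`; the first two clauses `5 + 5`; every `xorC` block `7 + 9 + 7 + 7 = 30`,
`n - 1` blocks; the last two clauses `4 + 6`. -/
def SZQStmt : Prop := ∀ n : ℕ, 1 ≤ n → (QPar n).size + 8 = 34 * n ∧ (QPar n).Closed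

/-- **FLS** (90 lines).  `QPar n` is false.
PROOF.  Show by induction on the prefix: `QVal M (replicate m false ++ p) i σ` implies that there is
`σ'` that agrees with `σ` outside `i, …, i+m-1` with `QVal M p (i + m) σ'`.  So if `QPar n` is true
there is `σ₁` and for both `b` some `σ_b` which agrees with `σ₁` on `0, …, n-1`, has the value `b` at
`n`, and satisfies the matrix.  The clauses give by induction `σ_b (n + 1 + i) = px σ_b (i + 1)` for
`i < n`, and the last two clauses `σ_b (2n) ≠ b`; so `px σ_b n ≠ b` for both `b`, but `px σ_b n`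
depends only on the values at `0, …, n-1`. -/
def FLSStmt : Prop := ∀ n : ℕ, 1 ≤ n → ¬ (QPar n).IsTrue

/-! ## E. Assembly -/

/-- **NUM** (120 lines).  The parameters.  `q = ⌈3 (c + 1)/ε⌉ + 1`, `r = q - 1`,
`k = 3 (r 4^r) + q + 1`, `γ = ε/3`.
PROOF.  `s^(2/3) ≤ (34 n)^((3/2 - ε) (2/3)) = (34 n)^(1 - 2ε/3)` (if `s = 0` the left side is `0`), so
`(n^γ s^(2/3))^q ≤ (34 n)^(q (1 - ε/3))`, `3 M ≤ 3 (34 n)^c`; `n.choose q ≥ (n/q)^q`
(`Nat.pow_le_choose`: `(n/q)^q ≤ choose`), so it is enough that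
`2^k C(k,q) 3 C 34^(q + c) n^(q + c - q ε/3) q^q < n^q`, and `q ε/3 ≥ c + 1`: true for
`n > 2^k C(k,q) 3 C 34^(q+c) q^q`. -/
def NUMStmt : Prop := ∀ ε : ℝ, 0 < ε → ε ≤ 1 → ∀ c : ℕ, ∃ q k : ℕ, 1 ≤ q ∧ q ≤ k ∧
  3 * ((q - 1) * 4 ^ (q - 1)) < k ∧ ∀ C : ℝ, 1 ≤ C → ∃ N₀ : ℕ, ∀ n : ℕ, N₀ ≤ n → k ≤ n ∧
    ∀ s M : ℕ, (s : ℝ) ≤ (34 * (n : ℝ)) ^ ((3 : ℝ) / 2 - ε) → (M : ℝ) ≤ (34 * (n : ℝ)) ^ c →
      2 ^ k * (k.choose q : ℝ) * ((3 * M) * (2 ^ n * C * ((n : ℝ) ^ (ε / 3) *
        (s : ℝ) ^ ((2 : ℝ) / 3)) ^ q)) < 2 ^ n * (n.choose q : ℝ)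

/-- **FIN** (100 lines; uses MOM GRS DLT EXT PFM SZQ FLS NUM).  The theorem.
PROOF.  `ε ≤ 1` may be assumed (for `ε > 1` the bound on `s` is smaller, as `|Φ| ≥ 1`).  Suppose
`k < |Φ|^c` for a refutation with `k` reductions; EXT gives `L`, `B : Fin k → PF`;
`T0 j x = (L j).eval (asg x false)`, `T1 j x = (L j).eval (asg x true)`,
`B' j x = (B j).eval (asg x false)`: all have `LC _ s` (PFM, monotone).  MOM with `A = univ` bounds
`Mq q` of each of the `3 k` functions, NUM gives the hypothesis of GRS (indices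
`Fin k ⊕ Fin k ⊕ Fin k` or `Fin (3 * k)`), GRS gives `K`, `ρ`, and DLT (with `r = q - 1`) the
contradiction. -/
def FINStmt : Prop := ∀ ε : ℝ, 0 < ε → ∀ c : ℕ, ∃ N₀ : ℕ, ∀ n : ℕ, N₀ ≤ n →
  (QPar n).Closed ∧ ¬ (QPar n).IsTrue ∧ n ≤ (QPar n).size ∧ (QPar n).size ≤ 34 * n ∧
  ∀ R : Set Rule, (∀ r ∈ R, r.Sound) → ∀ (s : ℕ) (Λ : List PF) (k : ℕ),
    (s : ℝ) ≤ ((QPar n).size : ℝ) ^ ((3 : ℝ) / 2 - ε) → Ref (QPar n) R s Λ k →
    PF.cst false ∈ Λ → (QPar n).size ^ c ≤ k

end Pool.Agent.FUR
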